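import Pool.Agent.W907.SM.Stmts
import Pool.Agent.W397.SG.EUL

set_option autoImplicit false

namespace Pool.Agent.W327.SM

open Module Pool.Agent.W907.SG Pool.Agent.W907.SM

/-! ### Euler-Poincare with trivial mod 2 coefficients -/

section ep

variable {V : Type} [Fintype V] [LinearOrder V]

/-- the trivial representation -/
def rid (V : Type) : V → ZMod 2 →ₗ[ZMod 2] ZMod 2 := fun _ => LinearMap.id

/-- the `i`-cliques -/
noncomputable def cl (G : SimpleGraph V) (A : Set V) (i : ℕ) : Finset (Finset V) :=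
  @Finset.filter (Finset V)
    (fun T : Finset V => G.IsClique (T : Set V) ∧ (T : Set V) ⊆ A ∧ T.card = i)
    (Classical.decPred _) Finset.univ

theorem mem_cl {G : SimpleGraph V} {A : Set V} {i : ℕ} {T : Finset V} :
    T ∈ cl G A i ↔ G.IsClique (T : Set V) ∧ (T : Set V) ⊆ A ∧ T.card = i := by
  classical
  unfold cl
  simp only [Finset.mem_filter, Finset.mem_univ, true_and]

theorem finrank_KK (G : SimpleGraph V) (A : Set V) (i : ℕ) :
    finrank (ZMod 2) (KK G (rid V) A ∅ i) = (cl G A i).card := by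
  classical
  have e : KK G (rid V) A ∅ i ≃ₗ[ZMod 2] (cl G A i → ZMod 2) :=
    { toFun := fun c T => c.1 T.1
      map_add' := fun c d => rfl
      map_smul' := fun a c => rfl
      invFun := fun g => ⟨fun T => if h : T ∈ cl G A i then g ⟨T, h⟩ else 0, by
        rw [mem_KK]
        refine ⟨fun T hT => ?_, fun T t _ => ?_⟩
        · rw [dif_neg]
          intro h
          exact hT (mem_cl.1 h)
        · exact (CharTwo.neg_eq _).symm⟩
      left_inv := fun c => by
        apply Subtype.ext
        funext T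
        simp only
        split_ifs with h
        · rfl
        · exact ((mem_KK.1 c.2).1 T fun h' => h (mem_cl.2 h')).symm
      right_inv := fun g => by
        funext T
        simp only
        rw [dif_pos T.2] }
  rw [e.finrank_eq, Module.finrank_fintype_fun_eq_card, Fintype.card_coe]

open Classical in
/-- the alternating number of cliques -/
noncomputable def chi (G : SimpleGraph V) (A : Set V) : ℚ :=
  ∑ T : Finset V, if G.IsClique (T : Set V) ∧ (T : Set V) ⊆ A then (-1 : ℚ) ^ T.card else 0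

theorem chi_eq (G : SimpleGraph V) (A : Set V) (N : ℕ) (hN : Fintype.card V < N) :
    chi G A = ∑ i ∈ Finset.range N, (-1 : ℚ) ^ i * ((cl G A i).card : ℚ) := by
  classical
  unfold chi
  have h1 : ∀ T : Finset V,
      (if G.IsClique (T : Set V) ∧ (T : Set V) ⊆ A then (-1 : ℚ) ^ T.card else 0) =
      ∑ i ∈ Finset.range N, if T ∈ cl G A i then (-1 : ℚ) ^ i else 0 := by
    intro T
    by_cases h : G.IsClique (T : Set V) ∧ (T : Set V) ⊆ A
    · rw [if_pos h, Finset.sum_eq_single T.card]
      · rw [if_pos (mem_cl.2 ⟨h.1, h.2, rfl⟩)]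
      · intro i _ hi
        rw [if_neg]
        intro h2
        exact hi (mem_cl.1 h2).2.2.symm
      · intro h2
        exfalso
        apply h2
        rw [Finset.mem_range]
        exact lt_of_le_of_lt (Finset.card_le_univ T) hN
    · rw [if_neg h]
      symm
      refine Finset.sum_eq_zero fun i _ => ?_
      rw [if_neg]
      intro h2
      exact h ⟨(mem_cl.1 h2).1, (mem_cl.1 h2).2.1⟩
  rw [Finset.sum_congr rfl fun T _ => h1 T, Finset.sum_comm]
  refine Finset.sum_congr rfl fun i _ => ?_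
  rw [← Finset.sum_filter, Finset.sum_const, nsmul_eq_mul, mul_comm]
  congr 3
  ext T
  simp

theorem chi_beta (G : SimpleGraph V) (A : Set V) (l : ℕ)
    (h : ∀ i, beta G (rid V) A ∅ i = if i = l then 1 else 0) : chi G A = (-1) ^ l := by
  obtain ⟨N, hN⟩ : ∃ N, N = Fintype.card V + l + 1 := ⟨_, rfl⟩
  have h1 := Pool.Agent.W397.SG.euler G (rid V) A ∅ N
  have h2 : finrank (ZMod 2) (BB G (rid V) A ∅ N) = 0 := by
    unfold BB
    rw [Pool.Agent.W397.SG.KK_big G (rid V) A ∅ (by omega), Submodule.map_bot, finrank_bot]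
  rw [h2] at h1
  rw [chi_eq G A (N + 1) (by omega)]
  have h3 : ∑ i ∈ Finset.range (N + 1), (-1 : ℤ) ^ i * (beta G (rid V) A ∅ i : ℤ) = (-1) ^ l := by
    rw [Finset.sum_eq_single l]
    · rw [h l, if_pos rfl]; simp
    · intro i _ hi
      rw [h i, if_neg hi]; simp
    · intro h4
      exact absurd (Finset.mem_range.2 (by omega)) h4
  rw [h3] at h1
  have h4 : ((-1 : ℤ) ^ l : ℤ) = ∑ i ∈ Finset.range (N + 1), (-1 : ℤ) ^ i * ((cl G A i).card : ℤ) := by
    rw [h1]
    simp only [finrank_KK]
    simp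
  have h5 := congrArg (fun z : ℤ => (z : ℚ)) h4
  push_cast at h5
  exact h5.symm

end ep

/-! ### decomposition of chains by their largest element -/

section dec

variable {V : Type} [Fintype V] [LinearOrder V]

open Classical in
/-- weighted number of chains in `A` -/
noncomputable def gg (r : V → V → Prop) (w : ℚ) (A : Set V) : ℚ :=
  ∑ T : Finset V, if (W907.SM.cmp r).IsClique (T : Set V) ∧ (T : Set V) ⊆ A then w ^ T.card else 0

theorem cmp_adj (r : V → V → Prop) (x y : V) : (W907.SM.cmp r).Adj x y ↔ x ≠ y ∧ (r x y ∨ r y x) := by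
  unfold W907.SM.cmp
  exact SimpleGraph.fromRel_adj r x y

variable {n : ℕ} {r : V → V → Prop} {rk : V → Fin n}

/-- `τ` is the largest element of `T` -/
def IsTop (r : V → V → Prop) (T : Finset V) (t : V) : Prop := t ∈ T ∧ ∀ u ∈ T, u ≠ t → r u t

theorem exists_top (hrk : ∀ x y, r x y → rk x < rk y) (T : Finset V)
    (hT : (W907.SM.cmp r).IsClique (T : Set V)) (hne : T.Nonempty) : ∃! t, IsTop r T t := by
  obtain ⟨t, ht, hmax⟩ := T.exists_max_image rk hne
  refine ⟨t, ⟨ht, fun u hu hut => ?_⟩, ?_⟩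
  · have h1 := hT hu ht hut
    rw [cmp_adj] at h1
    rcases h1.2 with h | h
    · exact h
    · exact absurd (hrk _ _ h) (not_lt.2 (hmax u hu))
  · rintro s ⟨hs, hs2⟩
    by_contra hne2
    have h2 := hrk _ _ (hs2 t ht (Ne.symm hne2))
    exact absurd h2 (not_lt.2 (hmax s hs))

open Classical in
theorem gg_dec (htr : ∀ x y z, r x y → r y z → r x z) (hrk : ∀ x y, r x y → rk x < rk y) (w : ℚ)
    (N P : Set V) (hN : ∀ t ∈ N, ∀ u, r u t → u ∈ N) :
    gg r w (N ∩ P) = 1 + ∑ t : V, (N ∩ P).indicator (fun t => w * gg r w ({u | r u t} ∩ P)) t := by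
  have h1 : ∀ T : Finset V,
      (if (W907.SM.cmp r).IsClique (T : Set V) ∧ (T : Set V) ⊆ N ∩ P then w ^ T.card else 0) =
      (if T = ∅ then 1 else 0) + ∑ t : V, if IsTop r T t ∧ (W907.SM.cmp r).IsClique (T : Set V) ∧
        (T : Set V) ⊆ N ∩ P then w ^ T.card else 0 := by
    intro T
    by_cases h0 : T = ∅
    · subst h0
      rw [if_pos, if_pos rfl, Finset.sum_eq_zero]
      · simp
      · intro t _
        rw [if_neg]
        rintro ⟨⟨h, _⟩, _⟩
        exact absurd h (Finset.notMem_empty t)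
      · simp
    · rw [if_neg h0, zero_add]
      by_cases h : (W907.SM.cmp r).IsClique (T : Set V) ∧ (T : Set V) ⊆ N ∩ P
      · rw [if_pos h]
        obtain ⟨t, ht, huniq⟩ := exists_top hrk T h.1 (Finset.nonempty_iff_ne_empty.2 h0)
        rw [Finset.sum_eq_single t]
        · rw [if_pos ⟨ht, h⟩]
        · intro s _ hs
          rw [if_neg]
          rintro ⟨hs2, _⟩
          exact hs (huniq s hs2)
        · intro h2
          exact absurd (Finset.mem_univ t) h2
      · rw [if_neg h]
        symm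
        refine Finset.sum_eq_zero fun t _ => ?_
        rw [if_neg]
        rintro ⟨_, h2⟩
        exact h h2
  unfold gg
  rw [Finset.sum_congr rfl fun T _ => h1 T, Finset.sum_add_distrib, Finset.sum_comm]
  congr 1
  · simp
  · refine Finset.sum_congr rfl fun t _ => ?_
    by_cases ht : t ∈ N ∩ P
    · rw [Set.indicator_of_mem ht, Finset.mul_sum, ← Finset.sum_filter]
      have h2 : ∀ T : Finset V, (w * if (W907.SM.cmp r).IsClique (T : Set V) ∧
          (T : Set V) ⊆ {u | r u t} ∩ P then w ^ T.card else 0) =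
          if (W907.SM.cmp r).IsClique (T : Set V) ∧ (T : Set V) ⊆ {u | r u t} ∩ P then
            w * w ^ T.card else 0 := by
        intro T
        split_ifs <;> simp
      rw [Finset.sum_congr rfl fun T _ => h2 T, ← Finset.sum_filter]
      refine Finset.sum_nbij' (fun T => T.erase t) (fun T => insert t T) ?_ ?_ ?_ ?_ ?_
      · intro T hT
        rw [Finset.mem_filter] at hT ⊢
        obtain ⟨_, ⟨h3, h4⟩, h5, h6⟩ := hT
        refine ⟨Finset.mem_univ _, h5.subset (by
          intro x hx
          rw [Finset.coe_erase] at hx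
          exact hx.1), ?_⟩
        intro x hx
        rw [Finset.coe_erase] at hx
        exact ⟨h4 x hx.1 hx.2, (h6 hx.1).2⟩
      · intro T hT
        rw [Finset.mem_filter] at hT ⊢
        obtain ⟨_, h5, h6⟩ := hT
        refine ⟨Finset.mem_univ _, ⟨Finset.mem_insert_self _ _, ?_⟩, ?_, ?_⟩
        · intro u hu hut
          rcases Finset.mem_insert.1 hu with h | h
          · exact absurd h hut
          · exact (h6 h).1
        · rw [Finset.coe_insert]
          refine SimpleGraph.IsClique.insert h5 ?_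
          intro b hb hne
          rw [cmp_adj]
          exact ⟨hne, Or.inr (h6 hb).1⟩
        · intro x hx
          rw [Finset.coe_insert] at hx
          rcases hx with rfl | hx
          · exact ht
          · exact ⟨hN t ht.1 x (h6 hx).1, (h6 hx).2⟩
      · intro T hT
        rw [Finset.mem_filter] at hT
        exact Finset.insert_erase hT.2.1.1
      · intro T hT
        rw [Finset.mem_filter] at hT
        refine Finset.erase_insert ?_
        intro h
        have h3 := hrk _ _ (hT.2.2 h).1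
        exact absurd h3 (lt_irrefl _)
      · intro T hT
        rw [Finset.mem_filter] at hT
        rw [← pow_succ']
        congr 1
        rw [Finset.card_erase_of_mem hT.2.1.1]
        have := Finset.card_pos.2 ⟨t, hT.2.1.1⟩
        omega
    · rw [Set.indicator_of_notMem ht]
      refine Finset.sum_eq_zero fun T _ => ?_
      rw [if_neg]
      rintro ⟨h3, _, h4⟩
      exact ht (h4 h3.1)

end dec

/-! ### the interval identity -/

section main

variable {n : ℕ} {V : Type} [Fintype V] [LinearOrder V] {r : V → V → Prop} {rk : V → Fin n}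

theorem rk_lt_N (hrk : ∀ x y, r x y → rk x < rk y) {N : Set V} {m : ℕ} (hN : IsN r rk m N) {t : V}
    (ht : t ∈ N) : (rk t : ℕ) < m := by
  rcases hN with ⟨_, rfl⟩ | ⟨y, rfl, rfl⟩
  · exact (rk t).2
  · exact hrk t y ht

theorem low_N (htr : ∀ x y z, r x y → r y z → r x z) {N : Set V} {m : ℕ} (hN : IsN r rk m N) :
    ∀ t ∈ N, ∀ u, r u t → u ∈ N := by
  intro t ht u hu
  rcases hN with ⟨rfl, rfl⟩ | ⟨y, rfl, rfl⟩
  · trivial
  · exact htr u t y hu ht

/-- the full chain below `x` -/
theorem full_chain (hE : M_EXT) (hG : GorStar n r rk) (x : V) :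
    ∃ F : Finset V, (W907.SM.cmp r).IsClique (F : Set V) ∧ IsTop r F x ∧ F.card = (rk x : ℕ) + 1 ∧
      ∀ k : Fin n, k ≤ rk x → ∃ u ∈ F, rk u = k := by
  classical
  obtain ⟨F', hxF, hcl, hcard⟩ := hE n V r rk hG {x} (by simp)
  have hx : x ∈ F' := hxF (Finset.mem_singleton_self x)
  have hinj : Set.InjOn rk (F' : Set V) := by
    intro a ha b hb hab
    by_contra hne
    have h1 := hcl ha hb hne
    rw [cmp_adj] at h1
    rcases h1.2 with h | h
    · exact absurd (hG.rk_lt _ _ h) (by rw [hab]; exact lt_irrefl _)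
    · exact absurd (hG.rk_lt _ _ h) (by rw [hab]; exact lt_irrefl _)
  have himg : F'.image rk = Finset.univ := by
    apply Finset.eq_univ_of_card
    rw [Finset.card_image_of_injOn hinj, hcard, Fintype.card_fin]
  obtain ⟨F, hF⟩ : ∃ F, F = F'.filter (fun u => rk u ≤ rk x) := ⟨_, rfl⟩
  have hsub : F ⊆ F' := by rw [hF]; exact Finset.filter_subset _ _
  have hclF : (W907.SM.cmp r).IsClique (F : Set V) := hcl.subset (by exact_mod_cast hsub)
  have hxm : x ∈ F := by rw [hF, Finset.mem_filter]; exact ⟨hx, le_refl _⟩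
  refine ⟨F, hclF, ⟨hxm, ?_⟩, ?_, ?_⟩
  · intro u hu hux
    have h1 := hclF hu hxm hux
    rw [cmp_adj] at h1
    rcases h1.2 with h | h
    · exact h
    · rw [hF, Finset.mem_filter] at hu
      exact absurd (hG.rk_lt _ _ h) (not_lt.2 hu.2)
  · have h1 : F.image rk = Finset.univ.filter (fun k : Fin n => k ≤ rk x) := by
      ext k
      rw [Finset.mem_image, Finset.mem_filter]
      constructor
      · rintro ⟨u, hu, rfl⟩
        rw [hF, Finset.mem_filter] at hu
        exact ⟨Finset.mem_univ _, hu.2⟩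
      · rintro ⟨_, hk⟩
        have h2 : k ∈ F'.image rk := by rw [himg]; exact Finset.mem_univ _
        obtain ⟨u, hu, huk⟩ := Finset.mem_image.1 h2
        refine ⟨u, ?_, huk⟩
        rw [hF, Finset.mem_filter, huk]
        exact ⟨hu, hk⟩
    have h2 : F.card = (F.image rk).card :=
      (Finset.card_image_of_injOn (hinj.mono (by exact_mod_cast hsub))).symm
    rw [h2, h1]
    have h3 : Finset.univ.filter (fun k : Fin n => k ≤ rk x) = Finset.Iic (rk x) := by
      ext k; simp
    rw [h3, Fin.card_Iic]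
  · intro k hk
    have h2 : k ∈ F'.image rk := by rw [himg]; exact Finset.mem_univ _
    obtain ⟨u, hu, huk⟩ := Finset.mem_image.1 h2
    refine ⟨u, ?_, huk⟩
    rw [hF, Finset.mem_filter, huk]
    exact ⟨hu, hk⟩

theorem chi_gg (A : Set V) : chi (W907.SM.cmp r) A = gg r (-1) A := by
  unfold chi gg
  refine Finset.sum_congr rfl fun T _ => ?_
  split_ifs <;> rfl

theorem chi_bot (hI : M_INT) (hG : GorStar n r rk) {N : Set V} {m : ℕ} (hN : IsN r rk m N) :
    gg r (-1) N = (-1) ^ m := by
  rw [← chi_gg]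
  refine chi_beta _ _ m fun i => ?_
  have h1 := hI n V r rk hG N m hN ∅ (by simp) (by simp) i
  have h2 : lk (W907.SM.cmp r) ∅ ∩ N = N := by
    ext v; simp [lk]
  rw [h2] at h1
  unfold rid
  simpa using h1

theorem chi_int (hE : M_EXT) (hI : M_INT) (hG : GorStar n r rk) {N : Set V} {m : ℕ}
    (hN : IsN r rk m N) {x : V} (hx : x ∈ N) :
    gg r (-1) (N ∩ {u | r x u}) = (-1) ^ (m + (rk x : ℕ) + 1) := by
  rw [← chi_gg]
  obtain ⟨F, hcl, htop, hcard, hall⟩ := full_chain hE hG x
  have hxm := rk_lt_N hG.rk_lt hN hx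
  have h0 : chi (W907.SM.cmp r) (N ∩ {u | r x u}) = (-1) ^ (m - ((rk x : ℕ) + 1)) := by
    refine chi_beta _ _ _ fun i => ?_
    have h1 := hI n V r rk hG N m hN F hcl (by
      intro u hu
      by_cases h : u = x
      · rw [h]; exact hx
      · exact low_N hG.trans hN x hx u (htop.2 u hu h)) i
    have h2 : lk (W907.SM.cmp r) F ∩ N = N ∩ {u | r x u} := by
      ext v
      constructor
      · rintro ⟨h3, h4⟩
        refine ⟨h4, ?_⟩
        have h5 := h3 x htop.1
        rw [cmp_adj] at h5
        rcases h5.2 with h | h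
        · exfalso
          obtain ⟨u, hu, huk⟩ := hall (rk v) (hG.rk_lt _ _ h).le
          have h6 := h3 u hu
          rw [cmp_adj] at h6
          rcases h6.2 with h | h
          · exact absurd (hG.rk_lt _ _ h) (by rw [huk]; exact lt_irrefl _)
          · exact absurd (hG.rk_lt _ _ h) (by rw [huk]; exact lt_irrefl _)
        · exact h
      · rintro ⟨h3, h4⟩
        refine ⟨fun u hu => ?_, h3⟩
        rw [cmp_adj]
        by_cases h : u = x
        · rw [h]
          refine ⟨?_, Or.inr h4⟩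
          rintro rfl
          exact absurd (hG.rk_lt _ _ h4) (lt_irrefl _)
        · have h5 : r u v := hG.trans u x v (htop.2 u hu h) h4
          refine ⟨?_, Or.inr h5⟩
          rintro rfl
          exact absurd (hG.rk_lt _ _ h5) (lt_irrefl _)
    rw [h2, hcard] at h1
    unfold rid
    rw [h1]
    by_cases h3 : i + ((rk x : ℕ) + 1) = m
    · rw [if_pos h3, if_pos (by omega)]
    · rw [if_neg h3, if_neg (by omega)]
  rw [h0]
  obtain ⟨d, hd⟩ : ∃ d, m = d + ((rk x : ℕ) + 1) := ⟨m - ((rk x : ℕ) + 1), by omega⟩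
  rw [hd, Nat.add_sub_cancel, show d + ((rk x : ℕ) + 1) + (rk x : ℕ) + 1 = d + 2 * ((rk x : ℕ) + 1) by ring,
    pow_add, pow_mul]
  norm_num

/-- `∑_{τ < y} (-1)^{rk τ}` -/
theorem sum_bot (hI : M_INT) (hG : GorStar n r rk) {N : Set V} {m : ℕ} (hN : IsN r rk m N) :
    ∑ t : V, N.indicator (fun t => (-1 : ℚ) ^ (rk t : ℕ)) t = 1 - (-1) ^ m := by
  have h1 := gg_dec hG.trans hG.rk_lt (-1) N Set.univ (low_N hG.trans hN)
  rw [Set.inter_univ, chi_bot hI hG hN] at h1
  have h2 : ∀ t : V, N.indicator (fun t => (-1 : ℚ) * gg r (-1) ({u | r u t} ∩ Set.univ)) t =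
      - N.indicator (fun t => (-1 : ℚ) ^ (rk t : ℕ)) t := by
    intro t
    by_cases h : t ∈ N
    · rw [Set.indicator_of_mem h, Set.indicator_of_mem h, Set.inter_univ,
        chi_bot hI hG (m := (rk t : ℕ)) (Or.inr ⟨t, rfl, rfl⟩)]
      ring
    · rw [Set.indicator_of_notMem h, Set.indicator_of_notMem h, neg_zero]
  rw [Finset.sum_congr rfl fun t _ => h2 t, Finset.sum_neg_distrib] at h1
  linarith

/-- `∑_{x < τ < y} (-1)^{rk τ}` -/
theorem sum_int (hE : M_EXT) (hI : M_INT) (hG : GorStar n r rk) {N : Set V} {m : ℕ}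
    (hN : IsN r rk m N) {x : V} (hx : x ∈ N) :
    ∑ t : V, (N ∩ {u | r x u}).indicator (fun t => (-1 : ℚ) ^ (rk t : ℕ)) t =
      - (-1) ^ (rk x : ℕ) - (-1) ^ m := by
  have h1 := gg_dec hG.trans hG.rk_lt (-1) N {u | r x u} (low_N hG.trans hN)
  rw [chi_int hE hI hG hN hx] at h1
  have h2 : ∀ t : V, (N ∩ {u | r x u}).indicator (fun t =>
      (-1 : ℚ) * gg r (-1) ({u | r u t} ∩ {u | r x u})) t =
      (-1) ^ (rk x : ℕ) * (N ∩ {u | r x u}).indicator (fun t => (-1 : ℚ) ^ (rk t : ℕ)) t := by
    intro t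
    by_cases h : t ∈ N ∩ {u | r x u}
    · rw [Set.indicator_of_mem h, Set.indicator_of_mem h,
        chi_int hE hI hG (m := (rk t : ℕ)) (Or.inr ⟨t, rfl, rfl⟩) h.2]
      rw [pow_succ, pow_add]
      ring
    · rw [Set.indicator_of_notMem h, Set.indicator_of_notMem h, mul_zero]
  rw [Finset.sum_congr rfl fun t _ => h2 t, ← Finset.mul_sum] at h1
  have h3 : ((-1 : ℚ) ^ (rk x : ℕ)) * ((-1) ^ (rk x : ℕ)) = 1 := by
    rw [← pow_add, ← two_mul, pow_mul]; norm_num
  have h4 : (-1 : ℚ) ^ (m + (rk x : ℕ) + 1) = - ((-1) ^ m * (-1) ^ (rk x : ℕ)) := by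
    rw [pow_succ, pow_add]; ring
  rw [h4] at h1
  generalize hS : ∑ t : V, (N ∩ {u | r x u}).indicator (fun t => (-1 : ℚ) ^ (rk t : ℕ)) t = S at h1 ⊢
  linear_combination (-(-1 : ℚ) ^ (rk x : ℕ)) * h1 + (-(-1 : ℚ) ^ m - S) * h3

theorem odd_zero (hE : M_EXT) (hI : M_INT) (hG : GorStar n r rk) (m : ℕ) :
    Odd m → ∀ N : Set V, IsN r rk m N → gg r (-1 / 2) (N ∩ {v | Even (rk v : ℕ)}) = 0 := by
  induction m using Nat.strong_induction_on with
  | _ m ih =>
    intro hm N hN
    obtain ⟨f, hf⟩ : ∃ f : Set V → ℚ, f = fun A => gg r (-1 / 2) (A ∩ {v | Even (rk v : ℕ)}) :=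
      ⟨_, rfl⟩
    have hdec : ∀ A : Set V, (∀ t ∈ A, ∀ u, r u t → u ∈ A) → f A = 1 + ∑ t : V,
        (A ∩ {v | Even (rk v : ℕ)}).indicator (fun t => (-1 / 2 : ℚ) * f {u | r u t}) t := by
      intro A hA
      rw [hf]
      exact gg_dec hG.trans hG.rk_lt (-1 / 2) A _ hA
    have hlow : ∀ τ : V, ∀ t ∈ {u | r u τ}, ∀ u, r u t → u ∈ {u | r u τ} := by
      intro τ t ht u hu
      exact hG.trans u t τ hu ht
    have hmm : (-1 : ℚ) ^ m = -1 := hm.neg_one_pow
    have hS : ∑ t : V, (N ∩ {v | Even (rk v : ℕ)}).indicator (fun t => f {u | r u t}) t = 2 := by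
      have h1 : ∀ t : V, (N ∩ {v | Even (rk v : ℕ)}).indicator (fun t => f {u | r u t}) t =
          N.indicator (fun t => (-1 : ℚ) ^ (rk t : ℕ)) t +
          ∑ ρ : V, N.indicator (fun t => (-1 : ℚ) ^ (rk t : ℕ) *
            ({u | r u t} ∩ {v | Even (rk v : ℕ)}).indicator
              (fun ρ => (-1 / 2 : ℚ) * f {u | r u ρ}) ρ) t := by
        intro t
        by_cases ht : t ∈ N
        · have h2 : N.indicator (fun t => (-1 : ℚ) ^ (rk t : ℕ)) t +
              ∑ ρ : V, N.indicator (fun t => (-1 : ℚ) ^ (rk t : ℕ) *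
                ({u | r u t} ∩ {v | Even (rk v : ℕ)}).indicator
                  (fun ρ => (-1 / 2 : ℚ) * f {u | r u ρ}) ρ) t =
              (-1 : ℚ) ^ (rk t : ℕ) * f {u | r u t} := by
            rw [Set.indicator_of_mem ht, hdec {u | r u t} (hlow t)]
            simp only [Set.indicator_of_mem ht]
            rw [← Finset.mul_sum]
            ring
          rw [h2]
          by_cases he : Even (rk t : ℕ)
          · rw [Set.indicator_of_mem (show t ∈ N ∩ {v | Even (rk v : ℕ)} from ⟨ht, he⟩), he.neg_one_pow,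
              one_mul]
          · rw [Set.indicator_of_notMem (fun h => he h.2)]
            have h3 := ih (rk t : ℕ) (rk_lt_N hG.rk_lt hN ht) (Nat.not_even_iff_odd.1 he) {u | r u t}
              (Or.inr ⟨t, rfl, rfl⟩)
            have h4 : f {u | r u t} = 0 := by rw [hf]; exact h3
            rw [h4, mul_zero]
        · rw [Set.indicator_of_notMem (fun h => ht h.1)]
          simp only [Set.indicator_of_notMem ht]
          simp
      rw [Finset.sum_congr rfl fun t _ => h1 t, Finset.sum_add_distrib, sum_bot hI hG hN, hmm,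
        Finset.sum_comm]
      have h2 : ∀ ρ : V, ∑ t : V, N.indicator (fun t => (-1 : ℚ) ^ (rk t : ℕ) *
          ({u | r u t} ∩ {v | Even (rk v : ℕ)}).indicator
            (fun ρ => (-1 / 2 : ℚ) * f {u | r u ρ}) ρ) t = 0 := by
        intro ρ
        by_cases he : Even (rk ρ : ℕ)
        · have h3 : ∀ t : V, N.indicator (fun t => (-1 : ℚ) ^ (rk t : ℕ) *
              ({u | r u t} ∩ {v | Even (rk v : ℕ)}).indicator
                (fun ρ => (-1 / 2 : ℚ) * f {u | r u ρ}) ρ) t =
              ((-1 / 2 : ℚ) * f {u | r u ρ}) *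
                (N ∩ {u | r ρ u}).indicator (fun t => (-1 : ℚ) ^ (rk t : ℕ)) t := by
            intro t
            by_cases h : t ∈ N ∧ r ρ t
            · rw [Set.indicator_of_mem h.1, Set.indicator_of_mem (show t ∈ N ∩ {u | r ρ u} from h),
                Set.indicator_of_mem (show ρ ∈ {u | r u t} ∩ {v | Even (rk v : ℕ)} from ⟨h.2, he⟩)]
              ring
            · rw [Set.indicator_of_notMem (show t ∉ N ∩ {u | r ρ u} from h), mul_zero]
              by_cases ht : t ∈ N
              · rw [Set.indicator_of_mem ht, Set.indicator_of_notMem (fun h' => h ⟨ht, h'.1⟩), mul_zero]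
              · rw [Set.indicator_of_notMem ht]
          rw [Finset.sum_congr rfl fun t _ => h3 t, ← Finset.mul_sum]
          by_cases hρ : ρ ∈ N
          · rw [sum_int hE hI hG hN hρ, hmm, he.neg_one_pow]
            norm_num
          · rw [Finset.sum_eq_zero, mul_zero]
            intro t _
            rw [Set.indicator_of_notMem]
            rintro ⟨h4, h5⟩
            exact hρ (low_N hG.trans hN t h4 ρ h5)
        · refine Finset.sum_eq_zero fun t _ => ?_
          by_cases ht : t ∈ N
          · rw [Set.indicator_of_mem ht, Set.indicator_of_notMem (fun h' => he h'.2), mul_zero]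
          · rw [Set.indicator_of_notMem ht]
      rw [Finset.sum_congr rfl fun ρ _ => h2 ρ, Finset.sum_const_zero]
      norm_num
    have h5 := hdec N (low_N hG.trans hN)
    have h6 : ∑ t : V, (N ∩ {v | Even (rk v : ℕ)}).indicator
        (fun t => (-1 / 2 : ℚ) * f {u | r u t}) t = (-1 / 2) * 2 := by
      rw [← hS, Finset.mul_sum]
      refine Finset.sum_congr rfl fun t _ => ?_
      by_cases h : t ∈ N ∩ {v | Even (rk v : ℕ)}
      · rw [Set.indicator_of_mem h, Set.indicator_of_mem h]
      · rw [Set.indicator_of_notMem h, Set.indicator_of_notMem h, mul_zero]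
    rw [h6] at h5
    have h7 : f N = 0 := by rw [h5]; norm_num
    rw [hf] at h7
    exact h7

end main

theorem eulf (hE : M_EXT) (hI : M_INT) : M_EULF := by
  intro n V _ _ r rk hG N j hN
  have h1 := odd_zero hE hI hG (2 * j + 1) ⟨j, rfl⟩ N hN
  unfold gg at h1
  refine Eq.trans ?_ h1
  refine Finset.sum_congr rfl fun T _ => ?_
  by_cases h : (W907.SM.cmp r).IsClique (T : Set V) ∧ (T : Set V) ⊆ N ∩ {v | Even (rk v : ℕ)}
  · rw [if_pos h, if_pos ⟨h.1, fun x hx => (h.2 hx).1, fun t ht => (h.2 ht).2⟩]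
  · rw [if_neg h, if_neg]
    rintro ⟨h2, h3, h4⟩
    exact h ⟨h2, fun x hx => ⟨h3 hx, h4 x hx⟩⟩

end Pool.Agent.W327.SM
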